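import Mathlib

set_option autoImplicit false

namespace Pool.Agent.Helper92

/-- The inequality of Q1 for one real number `ξ` and one `ε`: there is `c > 0` with
`|ξ - p/q| > c / (q² (log q)^(1+ε))` for all integers `p` and all integers `q ≥ 2`. -/
def LangAt (ξ ε : ℝ) : Prop :=
  ∃ c : ℝ, 0 < c ∧ ∀ p : ℤ, ∀ q : ℕ, 2 ≤ q →
    c / ((q : ℝ) ^ 2 * (Real.log (q : ℝ)) ^ (1 + ε)) < |ξ - (p : ℝ) / (q : ℝ)|

end Pool.Agent.Helper92
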