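import Mathlib
import Pool.Agent.Helper92.LangDefs

set_option autoImplicit false
set_option maxHeartbeats 4000000

namespace Pool.Agent.Helper92

open Real

/-- weight function -/
private lemma weight_pos {ε : ℝ} {q : ℕ} (hq : 2 ≤ q) :
    0 < (q : ℝ) ^ 2 * (Real.log (q : ℝ)) ^ (1 + ε) := by
  have h1 : (1 : ℝ) < q := by exact_mod_cast (by omega : 1 < q)
  have := Real.log_pos h1
  positivity

private lemma log_two_le {q : ℕ} (hq : 2 ≤ q) : Real.log 2 ≤ Real.log (q : ℝ) := by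
  apply Real.log_le_log (by norm_num)
  exact_mod_cast hq

private lemma weight_ge {ε : ℝ} (hε : 0 < ε) {q : ℕ} (hq : 2 ≤ q) :
    4 * (Real.log 2) ^ (1 + ε) ≤ (q : ℝ) ^ 2 * (Real.log (q : ℝ)) ^ (1 + ε) := by
  have h2 : (2 : ℝ) ≤ q := by exact_mod_cast hq
  have hl2 : 0 < Real.log 2 := Real.log_pos (by norm_num)
  have h3 : (Real.log 2) ^ (1 + ε) ≤ (Real.log (q : ℝ)) ^ (1 + ε) :=
    Real.rpow_le_rpow hl2.le (log_two_le hq) (by linarith)
  have h4 : (4 : ℝ) ≤ (q : ℝ) ^ 2 := by nlinarith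
  exact mul_le_mul h4 h3 (by positivity) (by positivity)

private lemma lin_ne_zero {x : ℝ} (hx : Irrational x) {u v : ℤ} (h : u ≠ 0 ∨ v ≠ 0) :
    (u : ℝ) * x + v ≠ 0 := by
  intro h0
  by_cases hu : u = 0
  · subst hu
    simp at h0
    rcases h with h | h
    · exact h rfl
    · exact h h0
  · have hu' : (u : ℝ) ≠ 0 := by exact_mod_cast hu
    apply hx
    refine ⟨(-(v : ℚ)) / (u : ℚ), ?_⟩
    push_cast
    field_simp
    linarith

/-- Möbius transfer. -/
theorem langAt_mobius {ξ η ε : ℝ} (hε : 0 < ε) {a b c d : ℤ} (hΔ : a * d - b * c ≠ 0)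
    (_hξ : Irrational ξ) (hη : Irrational η)
    (hrel : (a : ℝ) * ξ + b = η * (c * ξ + d)) (h : LangAt ξ ε) : LangAt η ε := by
  obtain ⟨c0, hc0, h⟩ := h
  have hl2 : 0 < Real.log 2 := Real.log_pos (by norm_num)
  set Δ : ℤ := a * d - b * c with hΔdef
  have hΔr : (Δ : ℝ) = a * d - b * c := by rw [hΔdef]; push_cast; ring
  have hΔ0 : (Δ : ℝ) ≠ 0 := by exact_mod_cast hΔ
  have hac : c ≠ 0 ∨ a ≠ 0 := by
    by_contra hcon
    push Not at hcon
    apply hΔ
    rw [hΔdef, hcon.1, hcon.2]; ring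
  -- a - cη ≠ 0
  have hm : (a : ℝ) - c * η ≠ 0 := by
    have := lin_ne_zero hη (u := -c) (v := a) (by
      rcases hac with h | h
      · left; simpa using h
      · right; exact h)
    intro h0
    apply this
    push_cast
    linarith
  have hm' : 0 < |(a : ℝ) - c * η| := abs_pos.mpr hm
  have hrel2 : ξ * ((a : ℝ) - c * η) = d * η - b := by linarith
  set K : ℝ := 1 + |(a : ℝ)| + |(c : ℝ)| * (|η| + 1) with hK
  have hK1 : 1 ≤ K := by
    rw [hK]
    have := abs_nonneg (a : ℝ)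
    have h2 : 0 ≤ |(c : ℝ)| * (|η| + 1) := by positivity
    linarith
  set M : ℝ := Real.log (2 * K) / Real.log 2 + 1 with hM
  have hM1 : 0 < M := by
    have : 0 ≤ Real.log (2 * K) := Real.log_nonneg (by linarith)
    rw [hM]; positivity
  set c1 : ℝ := c0 * |(a : ℝ) - c * η| / (4 * |(Δ : ℝ)| * K * M ^ (1 + ε)) with hc1
  have hΔpos : 0 < |(Δ : ℝ)| := abs_pos.mpr hΔ0
  have hKpos : 0 < K := by linarith
  have hc1pos : 0 < c1 := by rw [hc1]; positivity
  set W0 : ℝ := 4 * (Real.log 2) ^ (1 + ε) with hW0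
  have hW0pos : 0 < W0 := by rw [hW0]; positivity
  set δ0 : ℝ := |(a : ℝ) - c * η| / (|(c : ℝ)| + 1) with hδ0
  have hδ0pos : 0 < δ0 := by rw [hδ0]; positivity
  refine ⟨min c1 (min W0 (W0 * δ0)), lt_min hc1pos (lt_min hW0pos (by positivity)), ?_⟩
  intro p q hq
  have hqr : (2 : ℝ) ≤ q := by exact_mod_cast hq
  have hq0 : (0 : ℝ) < q := by linarith
  have hW := weight_pos (ε := ε) hq
  have hWge := weight_ge hε hq
  set W : ℝ := (q : ℝ) ^ 2 * (Real.log (q : ℝ)) ^ (1 + ε) with hWdef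
  by_cases hfar : 1 < |η - (p : ℝ) / q|
  · refine lt_of_le_of_lt ?_ hfar
    rw [div_le_one hW]
    exact ((min_le_right _ _).trans (min_le_left _ _)).trans hWge
  push Not at hfar
  by_cases hQ : a * (q : ℤ) - c * p = 0
  · -- p/q = a/c
    have hQr : (a : ℝ) * q = c * p := by
      have : ((a * (q : ℤ) - c * p : ℤ) : ℝ) = 0 := by rw [hQ]; simp
      push_cast at this
      linarith
    have hc : c ≠ 0 := by
      intro hc
      have : a = 0 := by
        rw [hc] at hQr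
        simp at hQr
        rcases hQr with h | h
        · exact_mod_cast h
        · omega
      rcases hac with h | h
      · exact h hc
      · exact h this
    have hcr : (c : ℝ) ≠ 0 := by exact_mod_cast hc
    have hcpos : 0 < |(c : ℝ)| := abs_pos.mpr hcr
    have hpq : (p : ℝ) / q = a / c := by
      field_simp
      linarith
    have hval : |η - (p : ℝ) / q| = |(a : ℝ) - c * η| / |(c : ℝ)| := by
      rw [hpq, ← abs_div, abs_sub_comm]
      congr 1
      field_simp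
    have h1 : δ0 < |η - (p : ℝ) / q| := by
      rw [hval, hδ0]
      apply div_lt_div_of_pos_left hm' hcpos
      linarith
    refine lt_of_le_of_lt ?_ h1
    rw [div_le_iff₀ hW]
    calc min c1 (min W0 (W0 * δ0)) ≤ W0 * δ0 := (min_le_right _ _).trans (min_le_right _ _)
      _ ≤ W * δ0 := by apply mul_le_mul_of_nonneg_right hWge hδ0pos.le
      _ = δ0 * W := by ring
  -- main case
  set Q : ℤ := a * (q : ℤ) - c * p with hQdef
  set P : ℤ := d * p - b * q with hPdef
  have hQr : (Q : ℝ) = a * q - c * p := by rw [hQdef]; push_cast; ring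
  have hPr : (P : ℝ) = d * p - b * q := by rw [hPdef]; push_cast; ring
  have hQ0 : (Q : ℝ) ≠ 0 := by exact_mod_cast hQ
  have hQpos : 0 < |(Q : ℝ)| := abs_pos.mpr hQ0
  -- identity
  have hid : (ξ - (P : ℝ) / Q) * (((a : ℝ) - c * η) * Q) = Δ * q * (η - (p : ℝ) / q) := by
    have e1 : (ξ - (P : ℝ) / Q) * (((a : ℝ) - c * η) * Q)
        = ξ * ((a : ℝ) - c * η) * Q - P * ((a : ℝ) - c * η) := by
      field_simp
    have e2 : (Δ : ℝ) * q * (η - (p : ℝ) / q) = Δ * (q * η - p) := by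
      field_simp
    rw [e1, e2, hrel2, hQr, hPr, hΔr]
    ring
  have hid' : |ξ - (P : ℝ) / Q| * (|(a : ℝ) - c * η| * |(Q : ℝ)|)
      = |(Δ : ℝ)| * q * |η - (p : ℝ) / q| := by
    have := congrArg abs hid
    rw [abs_mul, abs_mul, abs_mul, abs_mul, abs_of_pos hq0] at this
    exact this
  -- apply h
  obtain ⟨P', Q', hQ'2, hfrac, hQ'r⟩ : ∃ P' : ℤ, ∃ Q' : ℕ, 2 ≤ Q' ∧
      (P' : ℝ) / (Q' : ℝ) = (P : ℝ) / Q ∧ (Q' : ℝ) = 2 * |(Q : ℝ)| := by
    have hnat : ((Q.natAbs : ℕ) : ℝ) = |(Q : ℝ)| := by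
      rw [← Int.cast_abs, Int.abs_eq_natAbs]; simp
    have hQn : 1 ≤ Q.natAbs := Nat.one_le_iff_ne_zero.mpr (by simpa using hQ)
    have hcast : ((2 * Q.natAbs : ℕ) : ℝ) = 2 * |(Q : ℝ)| := by
      rw [Nat.cast_mul, hnat]; norm_num
    rcases lt_or_gt_of_ne hQ with hneg | hpos
    · refine ⟨-(2 * P), 2 * Q.natAbs, by omega, ?_, hcast⟩
      have hQneg : (Q : ℝ) < 0 := by exact_mod_cast hneg
      rw [hcast, abs_of_neg hQneg]
      push_cast
      field_simp
    · refine ⟨2 * P, 2 * Q.natAbs, by omega, ?_, hcast⟩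
      have hQpos' : (0 : ℝ) < (Q : ℝ) := by exact_mod_cast hpos
      rw [hcast, abs_of_pos hQpos']
      push_cast
      field_simp
  have happ := h P' Q' hQ'2
  rw [hfrac, hQ'r] at happ
  -- bound on |Q|
  have hp : |(p : ℝ)| ≤ (|η| + 1) * q := by
    have h1 : |(p : ℝ) / q| ≤ |η| + 1 := by
      have : (p : ℝ) / q = η - (η - (p : ℝ) / q) := by ring
      rw [this]
      exact (abs_sub _ _).trans (by linarith)
    rw [abs_div, abs_of_pos hq0, div_le_iff₀ hq0] at h1
    exact h1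
  have hQK : |(Q : ℝ)| ≤ K * q := by
    rw [hQr]
    calc |(a : ℝ) * q - c * p| ≤ |(a : ℝ) * q| + |(c : ℝ) * p| := abs_sub _ _
      _ = |(a : ℝ)| * q + |(c : ℝ)| * |(p : ℝ)| := by
          rw [abs_mul, abs_mul, abs_of_pos hq0]
      _ ≤ |(a : ℝ)| * q + |(c : ℝ)| * ((|η| + 1) * q) := by
          gcongr
      _ ≤ K * q := by rw [hK]; nlinarith
  have hlogQ : Real.log (2 * |(Q : ℝ)|) ≤ M * Real.log q := by
    have h1 : Real.log (2 * |(Q : ℝ)|) ≤ Real.log (2 * K * q) := by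
      apply Real.log_le_log (by positivity)
      nlinarith
    have h2 : Real.log (2 * K * q) = Real.log (2 * K) + Real.log q :=
      Real.log_mul (by positivity) (by positivity)
    have h3 : 0 ≤ Real.log (2 * K) := Real.log_nonneg (by linarith)
    have h4 := log_two_le hq
    have h5 : Real.log (2 * K) ≤ Real.log (2 * K) / Real.log 2 * Real.log q := by
      rw [div_mul_eq_mul_div, le_div_iff₀ hl2]
      exact mul_le_mul_of_nonneg_left h4 h3
    rw [hM]
    rw [h2] at h1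
    linarith
  have hQ1 : 1 ≤ |(Q : ℝ)| := by
    have : (1 : ℤ) ≤ |Q| := Int.one_le_abs hQ
    have h2 : ((1 : ℤ) : ℝ) ≤ ((|Q| : ℤ) : ℝ) := by exact_mod_cast this
    rw [Int.cast_abs] at h2
    simpa using h2
  have hlogQpos : 0 < Real.log (2 * |(Q : ℝ)|) := Real.log_pos (by linarith)
  have hlogqpos : 0 < Real.log (q : ℝ) := lt_of_lt_of_le hl2 (log_two_le hq)
  have hpow : (Real.log (2 * |(Q : ℝ)|)) ^ (1 + ε) ≤ M ^ (1 + ε) * (Real.log q) ^ (1 + ε) := by
    rw [← Real.mul_rpow hM1.le hlogqpos.le]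
    exact Real.rpow_le_rpow hlogQpos.le hlogQ (by linarith)
  set L1 : ℝ := (Real.log (2 * |(Q : ℝ)|)) ^ (1 + ε) with hL1
  set L2 : ℝ := (Real.log (q : ℝ)) ^ (1 + ε) with hL2
  have hL1pos : 0 < L1 := by rw [hL1]; positivity
  have hL2pos : 0 < L2 := by rw [hL2]; positivity
  set MM : ℝ := M ^ (1 + ε) with hMM
  have hMMpos : 0 < MM := by rw [hMM]; positivity
  have hmul : c0 * |(a : ℝ) - c * η| / (4 * |(Q : ℝ)| * L1) < |(Δ : ℝ)| * q * |η - (p : ℝ) / q| := by
    rw [← hid']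
    have hmq : 0 < |(a : ℝ) - c * η| * |(Q : ℝ)| := by positivity
    have := mul_lt_mul_of_pos_right happ hmq
    refine lt_of_eq_of_lt ?_ this
    field_simp
    ring
  have hfin : c0 * |(a : ℝ) - c * η| / (4 * (K * q) * (MM * L2)) ≤
      c0 * |(a : ℝ) - c * η| / (4 * |(Q : ℝ)| * L1) := by
    apply div_le_div_of_nonneg_left (by positivity) (by positivity)
    gcongr
  have hfin2 : c1 / W * (|(Δ : ℝ)| * q) = c0 * |(a : ℝ) - c * η| / (4 * (K * q) * (MM * L2)) := by
    rw [hc1, hWdef]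
    field_simp
  have hlt : c1 / W * (|(Δ : ℝ)| * q) < |η - (p : ℝ) / q| * (|(Δ : ℝ)| * q) := by
    rw [hfin2]
    refine lt_of_le_of_lt hfin (lt_of_lt_of_eq hmul ?_)
    ring
  have hlt2 : c1 / W < |η - (p : ℝ) / q| := lt_of_mul_lt_mul_right hlt (by positivity)
  refine lt_of_le_of_lt ?_ hlt2
  exact div_le_div_of_nonneg_right (min_le_left _ _) hW.le

/-- integer relation -/
theorem exists_mobius {ξ η : ℝ} (h3 : (minpoly ℚ ξ).natDegree = 3)
    (hη : η ∈ IntermediateField.adjoin ℚ ({ξ} : Set ℝ)) (hξi : Irrational ξ) (hηi : Irrational η) :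
    ∃ a b c d : ℤ, a * d - b * c ≠ 0 ∧ (a : ℝ) * ξ + b = η * (c * ξ + d) := by
  have hint : IsIntegral ℚ ξ := by
    by_contra hcon
    rw [minpoly.eq_zero hcon] at h3
    simp at h3
  set K := IntermediateField.adjoin ℚ ({ξ} : Set ℝ) with hK
  have hfin : Module.finrank ℚ K = 3 := by
    rw [hK, IntermediateField.adjoin.finrank hint, h3]
  haveI : FiniteDimensional ℚ K := Module.finite_of_finrank_pos (by rw [hfin]; norm_num)
  have hξK : ξ ∈ K := IntermediateField.mem_adjoin_simple_self ℚ ξ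
  let x : K := ⟨ξ, hξK⟩
  let y : K := ⟨η, hη⟩
  have hdep : ¬ LinearIndependent ℚ (![1, x, y, x * y] : Fin 4 → K) := by
    intro hli
    have := hli.fintype_card_le_finrank
    rw [hfin] at this
    simp at this
  rw [Fintype.not_linearIndependent_iff] at hdep
  obtain ⟨g, hg, i, hi⟩ := hdep
  have hgr : (g 0 : ℝ) + g 1 * ξ + g 2 * η + g 3 * (ξ * η) = 0 := by
    have h1 := congrArg (fun z : K => (z : ℝ)) hg
    simp only [Fin.sum_univ_four] at h1
    have e : ((g 0 • (![1, x, y, x * y] : Fin 4 → K) 0 + g 1 • (![1, x, y, x * y] : Fin 4 → K) 1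
      + g 2 • (![1, x, y, x * y] : Fin 4 → K) 2 + g 3 • (![1, x, y, x * y] : Fin 4 → K) 3 : K) : ℝ)
      = (g 0 : ℝ) + g 1 * ξ + g 2 * η + g 3 * (ξ * η) := by
      simp [x, y, Algebra.smul_def]
    rw [e] at h1
    simpa using h1
  -- clear denominators
  set D : ℤ := (g 0).den * (g 1).den * (g 2).den * (g 3).den with hD
  have hD0 : D ≠ 0 := by
    rw [hD]
    simp [Rat.den_ne_zero]
  have hDr : (D : ℝ) ≠ 0 := by exact_mod_cast hD0
  have hnd : ∀ r : ℚ, ((r.num : ℝ)) = (r : ℝ) * (r.den : ℝ) := by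
    intro r
    have := Rat.mul_den_eq_num r
    exact_mod_cast this.symm
  obtain ⟨n0, hn0⟩ : ∃ n : ℤ, (n : ℝ) = D * g 0 :=
    ⟨(g 0).num * ((g 1).den * (g 2).den * (g 3).den), by rw [hD]; push_cast; rw [hnd]; ring⟩
  obtain ⟨n1, hn1⟩ : ∃ n : ℤ, (n : ℝ) = D * g 1 :=
    ⟨(g 1).num * ((g 0).den * (g 2).den * (g 3).den), by rw [hD]; push_cast; rw [hnd]; ring⟩
  obtain ⟨n2, hn2⟩ : ∃ n : ℤ, (n : ℝ) = D * g 2 :=
    ⟨(g 2).num * ((g 0).den * (g 1).den * (g 3).den), by rw [hD]; push_cast; rw [hnd]; ring⟩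
  obtain ⟨n3, hn3⟩ : ∃ n : ℤ, (n : ℝ) = D * g 3 :=
    ⟨(g 3).num * ((g 0).den * (g 1).den * (g 2).den), by rw [hD]; push_cast; rw [hnd]; ring⟩
  have hrel : (n0 : ℝ) + n1 * ξ + n2 * η + n3 * (ξ * η) = 0 := by
    rw [hn0, hn1, hn2, hn3]
    have : (D : ℝ) * g 0 + D * g 1 * ξ + D * g 2 * η + D * g 3 * (ξ * η)
      = D * ((g 0 : ℝ) + g 1 * ξ + g 2 * η + g 3 * (ξ * η)) := by ring
    rw [this, hgr, mul_zero]
  have hne : n0 ≠ 0 ∨ n1 ≠ 0 ∨ n2 ≠ 0 ∨ n3 ≠ 0 := by
    by_contra hcon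
    push Not at hcon
    obtain ⟨e0, e1, e2, e3⟩ := hcon
    rw [e0] at hn0; rw [e1] at hn1; rw [e2] at hn2; rw [e3] at hn3
    have z0 : g 0 = 0 := by
      have : (D : ℝ) * g 0 = 0 := by rw [← hn0]; simp
      rcases mul_eq_zero.mp this with h | h
      · exact absurd h hDr
      · exact_mod_cast h
    have z1 : g 1 = 0 := by
      have : (D : ℝ) * g 1 = 0 := by rw [← hn1]; simp
      rcases mul_eq_zero.mp this with h | h
      · exact absurd h hDr
      · exact_mod_cast h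
    have z2 : g 2 = 0 := by
      have : (D : ℝ) * g 2 = 0 := by rw [← hn2]; simp
      rcases mul_eq_zero.mp this with h | h
      · exact absurd h hDr
      · exact_mod_cast h
    have z3 : g 3 = 0 := by
      have : (D : ℝ) * g 3 = 0 := by rw [← hn3]; simp
      rcases mul_eq_zero.mp this with h | h
      · exact absurd h hDr
      · exact_mod_cast h
    fin_cases i
    · exact hi z0
    · exact hi z1
    · exact hi z2
    · exact hi z3
  refine ⟨n1, n0, -n3, -n2, ?_, ?_⟩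
  · intro hdet
    have hdetr : (n0 : ℝ) * n3 = n1 * n2 := by
      have : ((n1 * (-n2) - n0 * (-n3) : ℤ) : ℝ) = 0 := by rw [hdet]; simp
      push_cast at this
      linarith
    by_cases hcd : n3 = 0 ∧ n2 = 0
    · obtain ⟨h3', h2'⟩ := hcd
      have hab : n1 ≠ 0 ∨ n0 ≠ 0 := by
        rcases hne with h | h | h | h
        · right; exact h
        · left; exact h
        · exact absurd h2' h
        · exact absurd h3' h
      apply lin_ne_zero hξi hab
      rw [h3', h2'] at hrel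
      push_cast at hrel
      linarith
    · have hcd' : n3 ≠ 0 ∨ n2 ≠ 0 := by
        by_contra hcon
        push Not at hcon
        exact hcd hcon
      have hw := lin_ne_zero hξi hcd'
      -- n3 * (n1 ξ + n0) = n1 (n3 ξ + n2)
      have e1 : ((n3 : ℝ) * η + n1) * (n3 * ξ + n2) = 0 := by
        have : ((n3 : ℝ) * η + n1) * (n3 * ξ + n2)
          = n3 * ((n0 : ℝ) + n1 * ξ + n2 * η + n3 * (ξ * η)) + (n1 * n2 - n0 * n3) := by ring
        rw [this, hrel, hdetr]; ring
      have e2 : (n3 : ℝ) * η + n1 = 0 := by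
        rcases mul_eq_zero.mp e1 with h | h
        · exact h
        · exact absurd h hw
      have h31 : n3 = 0 ∧ n1 = 0 := by
        by_contra hcon
        apply lin_ne_zero hηi (u := n3) (v := n1) _ e2
        by_contra hcon2
        push Not at hcon2
        exact hcon hcon2
      have h2n : n2 ≠ 0 := by
        rcases hcd' with h | h
        · exact absurd h31.1 h
        · exact h
      apply lin_ne_zero hηi (u := n2) (v := n0) (Or.inl h2n)
      rw [h31.1, h31.2] at hrel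
      push_cast at hrel
      linarith
  · push_cast
    linarith

/-- invariance -/
theorem langAt_iff_of_mem_cubic {ξ η ε : ℝ} (hε : 0 < ε) (h3 : (minpoly ℚ ξ).natDegree = 3)
    (hη : η ∈ IntermediateField.adjoin ℚ ({ξ} : Set ℝ)) (hηi : Irrational η) :
    LangAt ξ ε ↔ LangAt η ε := by
  have hξi : Irrational ξ := by
    rintro ⟨r, rfl⟩
    have : (minpoly ℚ ((r : ℚ) : ℝ)) = Polynomial.X - Polynomial.C r := minpoly.eq_X_sub_C ℝ r
    rw [this, Polynomial.natDegree_X_sub_C] at h3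
    omega
  obtain ⟨a, b, c, d, hdet, hrel⟩ := exists_mobius h3 hη hξi hηi
  constructor
  · exact langAt_mobius hε hdet hξi hηi hrel
  · refine langAt_mobius (a := d) (b := -b) (c := -c) (d := a) hε ?_ hηi hξi ?_
    · intro h
      apply hdet
      linarith
    · push_cast
      linarith

end Pool.Agent.Helper92
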